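import Pool.Agent.H712Z.Cot.Riesz

set_option autoImplicit false

namespace Pool.Agent.H712Z.Cot

open Finset
open scoped ENNReal

lemma sum_geo_inj (t : Finset ℤ) (φ : ℤ → ℕ) (hφ : Set.InjOn φ t) (r : ℝ) (h0 : 0 ≤ r)
    (h1 : r < 1) : ∑ i ∈ t, r ^ φ i ≤ (1 - r)⁻¹ := by
  classical
  rw [← Finset.sum_image (f := fun n => r ^ n) hφ, ← tsum_geometric_of_lt_one h0 h1]
  exact (summable_geometric_of_lt_one h0 h1).sum_le_tsum _ (fun n _ => pow_nonneg h0 n)

variable {M : Type} [PseudoMetricSpace M]

/-- a function of scale `k` -/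
def Good (α : ℝ) (k : ℤ) (g : M → ℝ) : Prop :=
  (∀ x, |g x| ≤ α ^ k) ∧ ∀ x y, |g x - g y| ≤ (α / 2) ^ k * dist x y

lemma good_zero {α : ℝ} (hα : 0 < α) (k : ℤ) : Good α k (fun _ : M => (0 : ℝ)) := by
  constructor
  · intro x; simp only [abs_zero]; positivity
  · intro x y; simp only [sub_zero, abs_zero]; positivity

/-- test functions: finite sums of functions of the different scales -/
structure Test (α : ℝ) (M : Type) [PseudoMetricSpace M] where
  s : Finset ℤ
  g : ℤ → M → ℝ
  good : ∀ k, Good α k (g k)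

/-- the value of a test function -/
def Test.ev {α : ℝ} (p : Test α M) (x : M) : ℝ := ∑ k ∈ p.s, p.g k x

/-- the constant in the upper bound -/
noncomputable def Kc (α : ℝ) : ℝ := 2 * (1 - α⁻¹)⁻¹ + (1 - α / 2)⁻¹

lemma Kc_pos {α : ℝ} (h1 : 1 < α) (h2 : α < 2) : 0 < Kc α := by
  unfold Kc
  have : α⁻¹ < 1 := inv_lt_one_of_one_lt₀ h1
  have h3 : 0 < 1 - α⁻¹ := by linarith
  have h4 : 0 < 1 - α / 2 := by linarith
  positivity

lemma ev_sub_le {α : ℝ} (h1 : 1 < α) (h2 : α < 2) (p : Test α M) (x y : M) (k : ℤ)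
    (h : dist x y ≤ (2 : ℝ) ^ k) : |p.ev x - p.ev y| ≤ Kc α * α ^ k := by
  classical
  have hα : 0 < α := by linarith
  have hi1 : α⁻¹ < 1 := inv_lt_one_of_one_lt₀ h1
  unfold Test.ev
  rw [← Finset.sum_sub_distrib]
  refine (Finset.abs_sum_le_sum_abs _ _).trans ?_
  rw [← Finset.sum_filter_add_sum_filter_not p.s (fun i => i ≤ k)]
  have hA : ∑ i ∈ p.s.filter (fun i => i ≤ k), |p.g i x - p.g i y|
      ≤ 2 * (1 - α⁻¹)⁻¹ * α ^ k := by
    have h3 := sum_geo_inj (p.s.filter (fun i => i ≤ k)) (fun i => (k - i).toNat) (by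
      intro i hi j hj hij
      simp only [Finset.coe_filter, Set.mem_ofPred_eq] at hi hj
      simp only at hij
      omega) α⁻¹ (by positivity) hi1
    calc ∑ i ∈ p.s.filter (fun i => i ≤ k), |p.g i x - p.g i y|
        ≤ ∑ i ∈ p.s.filter (fun i => i ≤ k), (2 * α ^ k) * α⁻¹ ^ (k - i).toNat := by
          apply Finset.sum_le_sum
          intro i hi
          rw [Finset.mem_filter] at hi
          have e : α ^ k * α⁻¹ ^ (k - i).toNat = α ^ i := by
            rw [← zpow_natCast, Int.toNat_of_nonneg (by omega), inv_zpow', ← zpow_add₀ hα.ne']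
            congr 1; ring
          rw [mul_assoc, e]
          have a1 := (p.good i).1 x
          have a2 := (p.good i).1 y
          calc |p.g i x - p.g i y| ≤ |p.g i x| + |p.g i y| := abs_sub _ _
            _ ≤ _ := by linarith
      _ = (2 * α ^ k) * ∑ i ∈ p.s.filter (fun i => i ≤ k), α⁻¹ ^ (k - i).toNat := by
          rw [Finset.mul_sum]
      _ ≤ (2 * α ^ k) * (1 - α⁻¹)⁻¹ := mul_le_mul_of_nonneg_left h3 (by positivity)
      _ = _ := by ring
  have hB : ∑ i ∈ p.s.filter (fun i => ¬ i ≤ k), |p.g i x - p.g i y|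
      ≤ (1 - α / 2)⁻¹ * α ^ k := by
    have h3 := sum_geo_inj (p.s.filter (fun i => ¬ i ≤ k)) (fun i => (i - k).toNat) (by
      intro i hi j hj hij
      simp only [Finset.coe_filter, Set.mem_ofPred_eq] at hi hj
      simp only at hij
      omega) (α / 2) (by positivity) (by linarith)
    calc ∑ i ∈ p.s.filter (fun i => ¬ i ≤ k), |p.g i x - p.g i y|
        ≤ ∑ i ∈ p.s.filter (fun i => ¬ i ≤ k), (α ^ k) * (α / 2) ^ (i - k).toNat := by
          apply Finset.sum_le_sum
          intro i hi
          rw [Finset.mem_filter] at hi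
          have e : α ^ k * (α / 2) ^ (i - k).toNat = (α / 2) ^ i * (2 : ℝ) ^ k := by
            have e1 : α ^ k = (α / 2) ^ k * (2 : ℝ) ^ k := by
              rw [← mul_zpow]; congr 1; ring
            have e2 : (α / 2) ^ i = (α / 2) ^ k * (α / 2) ^ (i - k) := by
              rw [← zpow_add₀ (by positivity)]; congr 1; ring
            rw [← zpow_natCast, Int.toNat_of_nonneg (by omega), e1, e2]
            ring
          rw [e]
          exact ((p.good i).2 x y).trans (mul_le_mul_of_nonneg_left h (by positivity))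
      _ = (α ^ k) * ∑ i ∈ p.s.filter (fun i => ¬ i ≤ k), (α / 2) ^ (i - k).toNat := by
          rw [Finset.mul_sum]
      _ ≤ (α ^ k) * (1 - α / 2)⁻¹ := mul_le_mul_of_nonneg_left h3 (by positivity)
      _ = _ := by ring
  unfold Kc
  linarith

/-- the lifting lemma -/
lemma exists_lift {α : ℝ} (h1 : 1 < α) {ι : Type} [Fintype ι] [DecidableEq ι]
    (p : ι → Test α M) (η : ι → ℝ) (l : ℕ) (hη2 : ∑ j, η j ^ 2 ≤ 4 ^ l)
    (hη1 : ∑ j, |η j| ≤ 4 ^ l) :
    ∃ P : (ι → Bool) → Test α M, ∀ j x, ∑ ε, sg (ε j) * (P ε).ev x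
      = 2 ^ Fintype.card ι * (2 * (2 * α) ^ l)⁻¹ * η j * (p j).ev x := by
  classical
  have hα : 0 < α := by linarith
  let s : Finset ℤ := Finset.univ.biUnion (fun j => (p j).s)
  let u : ι → ℤ → M → ℝ := fun j k x => if k ∈ (p j).s then (p j).g k x else 0
  have hu : ∀ j k, Good α k (u j k) := by
    intro j k
    by_cases hk : k ∈ (p j).s
    · have : u j k = (p j).g k := by funext x; simp [u, hk]
      rw [this]; exact (p j).good k
    · have : u j k = fun _ => 0 := by funext x; simp [u, hk]
      rw [this]; exact good_zero hα k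
  have hus : ∀ j x, ∑ k ∈ s, u j k x = (p j).ev x := by
    intro j x
    unfold Test.ev
    simp only [u]
    rw [← Finset.sum_filter]
    congr 1
    ext k
    simp only [Finset.mem_filter, s, Finset.mem_biUnion, Finset.mem_univ, true_and]
    exact ⟨fun h => h.2, fun h => ⟨⟨j, h⟩, h⟩⟩
  let c : ℝ := (2 * (2 * α) ^ l)⁻¹
  have hc : 0 < c := by positivity
  let R : ℤ → ℝ := fun k => 2 ^ l * α ^ k
  have hR : ∀ k, 0 < R k := fun k => by positivity
  let v : ℤ → M → ι → ℝ := fun k x j => η j * u j k x / R k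
  let G : ℤ → (ι → Bool) → M → ℝ := fun k ε x => c * R k * riesz (v k x) ε
  let β : ι → ℝ := fun j => |η j| / 2 ^ l
  have hβ : ∑ j, β j ^ 2 ≤ 1 := by
    simp only [β, div_pow, sq_abs]
    rw [← Finset.sum_div, div_le_one (by positivity)]
    refine hη2.trans (le_of_eq ?_)
    rw [← pow_mul, mul_comm, pow_mul]; norm_num
  have hv : ∀ k x j, |v k x j| ≤ β j := by
    intro k x j
    simp only [v, β, R]
    rw [abs_div, abs_mul, abs_of_pos (hR k), div_le_div_iff₀ (hR k) (by positivity)]
    have := (hu j k).1 x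
    simp only [R]
    calc |η j| * |u j k x| * 2 ^ l ≤ |η j| * α ^ k * 2 ^ l := by gcongr
      _ = _ := by ring
  have hG : ∀ k ε, Good α (k - l) (G k ε) := by
    intro k ε
    constructor
    · intro x
      simp only [G]
      rw [abs_mul, abs_of_pos (mul_pos hc (hR k))]
      have := abs_riesz_le (v k x) β (hv k x) hβ ε
      calc c * R k * |riesz (v k x) ε| ≤ c * R k * 2 :=
            mul_le_mul_of_nonneg_left this (mul_pos hc (hR k)).le
        _ = α ^ (k - l) := by
            simp only [c, R]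
            rw [zpow_sub₀ hα.ne', zpow_natCast, mul_pow]
            field_simp
    · intro x y
      simp only [G]
      rw [← mul_sub, abs_mul, abs_of_pos (mul_pos hc (hR k))]
      have h3 := abs_riesz_sub_le (v k x) (v k y) β (hv k x) (hv k y) hβ ε
      have h4 : ∑ j, |v k x j - v k y j| ≤ 4 ^ l * ((α / 2) ^ k * dist x y) / R k := by
        calc ∑ j, |v k x j - v k y j| ≤ ∑ j, |η j| * ((α / 2) ^ k * dist x y) / R k := by
              apply Finset.sum_le_sum
              intro j _
              simp only [v]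
              rw [← sub_div, ← mul_sub, abs_div, abs_mul, abs_of_pos (hR k)]
              have := (hu j k).2 x y
              have := hR k
              gcongr
          _ = (∑ j, |η j|) * ((α / 2) ^ k * dist x y) / R k := by
              rw [← Finset.sum_div, ← Finset.sum_mul]
          _ ≤ _ := by
              have := hR k
              gcongr
      calc c * R k * |riesz (v k x) ε - riesz (v k y) ε|
          ≤ c * R k * (2 * (4 ^ l * ((α / 2) ^ k * dist x y) / R k)) :=
            mul_le_mul_of_nonneg_left (h3.trans (by linarith)) (mul_pos hc (hR k)).le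
        _ = (α / 2) ^ (k - l) * dist x y := by
            have := (hR k).ne'
            have e4 : (4 : ℝ) ^ l = 2 ^ l * 2 ^ l := by rw [← mul_pow]; norm_num
            simp only [c]
            rw [zpow_sub₀ (by positivity), zpow_natCast, mul_pow, div_pow, e4]
            field_simp
  refine ⟨fun ε => ⟨s.map (Equiv.subRight (l : ℤ)).toEmbedding, fun k => G (k + l) ε, fun k => ?_⟩,
    fun j x => ?_⟩
  · have := hG (k + l) ε
    rwa [add_sub_cancel_right] at this
  · have e1 : ∀ ε : ι → Bool, Test.ev (α := α) (M := M) ⟨s.map (Equiv.subRight (l : ℤ)).toEmbedding,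
        fun k => G (k + l) ε, fun k => by
          have := hG (k + l) ε
          rwa [add_sub_cancel_right] at this⟩ x = ∑ k ∈ s, G k ε x := by
      intro ε
      unfold Test.ev
      simp only [Finset.sum_map, Equiv.coe_toEmbedding, Equiv.subRight_apply, sub_add_cancel]
    simp only [e1, Finset.mul_sum]
    rw [Finset.sum_comm, ← hus j x, Finset.mul_sum]
    apply Finset.sum_congr rfl
    intro k _
    have e2 : ∑ ε : ι → Bool, sg (ε j) * G k ε x
        = c * R k * ∑ ε : ι → Bool, sg (ε j) * riesz (v k x) ε := by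
      rw [Finset.mul_sum]
      apply Finset.sum_congr rfl
      intro ε _
      simp only [G]; ring
    rw [e2, sum_sg_riesz]
    have := (hR k).ne'
    simp only [v, c]
    field_simp

end Pool.Agent.H712Z.Cot
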