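import Mathlib

set_option autoImplicit false

namespace Pool.Agent.H712Z.Cot

open Finset

/-- the sign attached to a Boolean -/
def sg (b : Bool) : ℝ := if b then 1 else -1

lemma sg_sq (b : Bool) : sg b * sg b = 1 := by cases b <;> simp [sg]

lemma abs_sg (b : Bool) : |sg b| = 1 := by cases b <;> simp [sg]

lemma prod_sub_prod_le {ι : Type*} (s : Finset ι) (a a' : ι → ℂ) (b : ι → ℝ)
    (hb : ∀ j, 1 ≤ b j) (ha : ∀ j, ‖a j‖ ≤ b j) (ha' : ∀ j, ‖a' j‖ ≤ b j) :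
    ‖∏ j ∈ s, a j - ∏ j ∈ s, a' j‖ ≤ (∑ j ∈ s, ‖a j - a' j‖) * ∏ j ∈ s, b j := by
  classical
  induction s using Finset.induction_on with
  | empty => simp
  | @insert i s hi ih =>
    rw [Finset.prod_insert hi, Finset.prod_insert hi, Finset.sum_insert hi, Finset.prod_insert hi]
    have hA : ‖∏ j ∈ s, a j‖ ≤ ∏ j ∈ s, b j := by
      rw [norm_prod]
      exact Finset.prod_le_prod (fun j _ => norm_nonneg _) (fun j _ => ha j)
    have hB : 0 ≤ ∏ j ∈ s, b j := Finset.prod_nonneg (fun j _ => by linarith [hb j])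
    have hS : 0 ≤ ∑ j ∈ s, ‖a j - a' j‖ := Finset.sum_nonneg (fun j _ => norm_nonneg _)
    have e : a i * ∏ j ∈ s, a j - a' i * ∏ j ∈ s, a' j
        = (a i - a' i) * ∏ j ∈ s, a j + a' i * (∏ j ∈ s, a j - ∏ j ∈ s, a' j) := by ring
    rw [e]
    have h1 : ‖(a i - a' i) * ∏ j ∈ s, a j‖ ≤ ‖a i - a' i‖ * (b i * ∏ j ∈ s, b j) := by
      rw [norm_mul]
      apply mul_le_mul_of_nonneg_left _ (norm_nonneg _)
      nlinarith [hb i]
    have h2 : ‖a' i * (∏ j ∈ s, a j - ∏ j ∈ s, a' j)‖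
        ≤ b i * ((∑ j ∈ s, ‖a j - a' j‖) * ∏ j ∈ s, b j) := by
      rw [norm_mul]
      exact mul_le_mul (ha' i) ih (norm_nonneg _) (by linarith [hb i])
    calc _ ≤ _ := norm_add_le _ _
      _ ≤ _ := add_le_add h1 h2
      _ = _ := by ring

lemma norm_one_add_I_le (t β : ℝ) (h : |t| ≤ β) :
    ‖(1 : ℂ) + Complex.I * (t : ℂ)‖ ≤ Real.exp (β ^ 2 / 2) := by
  have h0 : ‖(1 : ℂ) + Complex.I * (t : ℂ)‖ ^ 2 = 1 + t ^ 2 := by
    rw [Complex.sq_norm, Complex.normSq_apply]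
    simp
    ring
  have h1 : t ^ 2 ≤ β ^ 2 := by
    rw [← sq_abs t]
    exact pow_le_pow_left₀ (abs_nonneg t) h 2
  have h2 : 1 + β ^ 2 ≤ Real.exp (β ^ 2 / 2) ^ 2 := by
    rw [← Real.exp_nat_mul]
    have := Real.add_one_le_exp (β ^ 2)
    have e : ((2 : ℕ) : ℝ) * (β ^ 2 / 2) = β ^ 2 := by push_cast; ring
    rw [e]; linarith
  exact le_of_sq_le_sq (by rw [h0]; linarith) (Real.exp_pos _).le |> fun h => h

variable {ι : Type*} [Fintype ι] [DecidableEq ι]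

/-- imaginary part of the Riesz product -/
noncomputable def riesz (v : ι → ℝ) (ε : ι → Bool) : ℝ :=
  (∏ j, ((1 : ℂ) + Complex.I * ((sg (ε j) * v j : ℝ) : ℂ))).im

omit [DecidableEq ι] in
lemma prod_exp_le (β : ι → ℝ) (hβ : ∑ j, β j ^ 2 ≤ 1) : ∏ j, Real.exp (β j ^ 2 / 2) ≤ 2 := by
  rw [← Real.exp_sum, ← Finset.sum_div]
  have h1 : Real.exp ((∑ j, β j ^ 2) / 2) ≤ Real.exp (1 / 2) := by
    apply Real.exp_le_exp.2; linarith
  have h2 : Real.exp (1 / 2) ≤ 2 := by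
    have h3 : Real.exp (1 / 2) ^ 2 = Real.exp 1 := by
      rw [← Real.exp_nat_mul]; norm_num
    have h4 := Real.exp_one_lt_d9
    nlinarith [Real.exp_pos (1 / 2 : ℝ)]
  linarith

omit [DecidableEq ι] in
lemma abs_riesz_le (v β : ι → ℝ) (hv : ∀ j, |v j| ≤ β j) (hβ : ∑ j, β j ^ 2 ≤ 1)
    (ε : ι → Bool) : |riesz v ε| ≤ 2 := by
  unfold riesz
  refine (Complex.abs_im_le_norm _).trans ?_
  rw [norm_prod]
  refine le_trans (Finset.prod_le_prod (fun j _ => norm_nonneg _) (fun j _ => ?_)) (prod_exp_le β hβ)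
  apply norm_one_add_I_le
  rw [abs_mul, abs_sg, one_mul]
  exact hv j

omit [DecidableEq ι] in
lemma abs_riesz_sub_le (v w β : ι → ℝ) (hv : ∀ j, |v j| ≤ β j) (hw : ∀ j, |w j| ≤ β j)
    (hβ : ∑ j, β j ^ 2 ≤ 1) (ε : ι → Bool) :
    |riesz v ε - riesz w ε| ≤ 2 * ∑ j, |v j - w j| := by
  unfold riesz
  rw [← Complex.sub_im]
  refine (Complex.abs_im_le_norm _).trans ?_
  refine (prod_sub_prod_le Finset.univ _ _ (fun j => Real.exp (β j ^ 2 / 2))
    (fun j => Real.one_le_exp (by positivity)) (fun j => ?_) (fun j => ?_)).trans ?_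
  · apply norm_one_add_I_le
    rw [abs_mul, abs_sg, one_mul]
    exact hv j
  · apply norm_one_add_I_le
    rw [abs_mul, abs_sg, one_mul]
    exact hw j
  · have e : ∀ j, ‖((1 : ℂ) + Complex.I * ((sg (ε j) * v j : ℝ) : ℂ))
        - ((1 : ℂ) + Complex.I * ((sg (ε j) * w j : ℝ) : ℂ))‖ = |v j - w j| := by
      intro j
      have : ((1 : ℂ) + Complex.I * ((sg (ε j) * v j : ℝ) : ℂ))
        - ((1 : ℂ) + Complex.I * ((sg (ε j) * w j : ℝ) : ℂ))
          = Complex.I * ((sg (ε j) * (v j - w j) : ℝ) : ℂ) := by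
        push_cast; ring
      rw [this, norm_mul, Complex.norm_I, one_mul, Complex.norm_real, Real.norm_eq_abs, abs_mul,
        abs_sg, one_mul]
    simp only [e]
    rw [mul_comm]
    exact mul_le_mul_of_nonneg_right (prod_exp_le β hβ)
      (Finset.sum_nonneg fun j _ => abs_nonneg _)

lemma sum_sg_riesz (v : ι → ℝ) (j : ι) :
    ∑ ε : ι → Bool, sg (ε j) * riesz v ε = 2 ^ Fintype.card ι * v j := by
  have key : ∑ ε : ι → Bool, ((sg (ε j) : ℝ) : ℂ) *
      ∏ k, ((1 : ℂ) + Complex.I * ((sg (ε k) * v k : ℝ) : ℂ))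
      = (2 : ℂ) ^ Fintype.card ι * (Complex.I * (v j : ℂ)) := by
    let F : ι → Bool → ℂ := fun k b =>
      (if k = j then ((sg b : ℝ) : ℂ) else 1) * ((1 : ℂ) + Complex.I * ((sg b * v k : ℝ) : ℂ))
    have h1 : ∀ ε : ι → Bool, ((sg (ε j) : ℝ) : ℂ) *
        ∏ k, ((1 : ℂ) + Complex.I * ((sg (ε k) * v k : ℝ) : ℂ)) = ∏ k, F k (ε k) := by
      intro ε
      simp only [F]
      rw [Finset.prod_mul_distrib, Finset.prod_ite_eq' Finset.univ j
        (fun k => ((sg (ε k) : ℝ) : ℂ))]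
      simp
    simp only [h1]
    have h2 : ∑ ε : ι → Bool, ∏ k, F k (ε k) = ∏ k, ∑ b : Bool, F k b := by
      rw [Finset.prod_univ_sum, Fintype.piFinset_univ]
    rw [h2]
    have h3 : ∀ k, ∑ b : Bool, F k b = 2 * (if k = j then Complex.I * (v j : ℂ) else 1) := by
      intro k
      by_cases hk : k = j
      · subst hk
        simp [F, sg]
        ring
      · simp [F, sg, hk]
        ring
    simp only [h3]
    rw [Finset.prod_mul_distrib, Finset.prod_const, Finset.card_univ,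
      Finset.prod_ite_eq' Finset.univ j (fun _ => Complex.I * (v j : ℂ))]
    simp
  have := congrArg Complex.im key
  rw [Complex.im_sum] at this
  simp only [Complex.im_ofReal_mul] at this
  unfold riesz
  rw [this]
  have e : (2 : ℂ) ^ Fintype.card ι = (((2 : ℝ) ^ Fintype.card ι : ℝ) : ℂ) := by push_cast; ring
  rw [e, Complex.im_ofReal_mul]
  simp

end Pool.Agent.H712Z.Cot
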