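import Pool.Agent.H712Z.Cot.Main

set_option autoImplicit false

namespace Pool.Agent.H712Z.Cot

open Finset

lemma avg_rpow_le {κ : Type} [Fintype κ] (a : κ → ℝ) (ha : ∀ i, 0 ≤ a i) (N q : ℝ)
    (hN : (Fintype.card κ : ℝ) = N) (hN0 : 0 < N) (hq : 1 ≤ q) :
    ((∑ i, a i) / N) ^ q ≤ (∑ i, a i ^ q) / N := by
  have h := Real.rpow_arith_mean_le_arith_mean_rpow Finset.univ (fun _ : κ => 1 / N) a
    (fun _ _ => by positivity) (by
      rw [Finset.sum_const, Finset.card_univ, nsmul_eq_mul, hN]; field_simp) (fun i _ => ha i) hq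
  rw [← Finset.mul_sum, ← Finset.mul_sum] at h
  rw [div_eq_inv_mul, div_eq_inv_mul, ← one_div]
  exact h

/-- One Banach space of cotype `q` containing the snowflakes of all the finite-dimensional
sup-norm spaces. -/
theorem exists_univ (q θ : ℝ) (hθ0 : 0 < θ) (hθ1 : θ < 1) (hq : 2 < q * (1 - θ)) :
    ∃ (Y : Type) (_ : NormedAddCommGroup Y) (_ : NormedSpace ℝ Y), CompleteSpace Y ∧
      (∃ C : ℝ, 0 < C ∧ (∀ (n : ℕ) (z : Fin n → Y),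
        ∑ j, ‖z j‖ ^ q ≤ C ^ q *
          ((∑ ε : Fin n → Bool, ‖∑ j, (if ε j then (1 : ℝ) else -1) • z j‖) / 2 ^ n) ^ q) ∧
        (∀ (n : ℕ) (z : Fin n → Y), ∑ j, ‖z j‖ ^ q ≤ C ^ q *
          ((∑ ε : Fin n → Bool, ‖∑ j, (if ε j then (1 : ℝ) else -1) • z j‖ ^ q) / 2 ^ n))) ∧
      ∃ (f : ∀ n : ℕ, (Fin n → ℂ) → Y) (K : ℝ), 0 < K ∧ ∀ n x y,
        dist x y ^ θ ≤ ‖f n x - f n y‖ ∧ ‖f n x - f n y‖ ≤ K * dist x y ^ θ := by
  letI : MetricSpace (Σ n : ℕ, (Fin n → ℂ)) := Metric.Sigma.metricSpace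
  obtain ⟨Y, i1, i2, hc, ⟨C, hC, hcot⟩, f, K, hK, hf⟩ :=
    exists_space (Σ n : ℕ, (Fin n → ℂ)) ⟨0, 0⟩ q θ hθ0 hθ1 hq
  have hq1 : 1 ≤ q := by nlinarith
  have h1 : ∀ (n : ℕ) (z : Fin n → Y),
        ∑ j, ‖z j‖ ^ q ≤ C ^ q *
          ((∑ ε : Fin n → Bool, ‖∑ j, (if ε j then (1 : ℝ) else -1) • z j‖) / 2 ^ n) ^ q := by
    intro n z
    have := hcot (Fin n) z
    rw [Fintype.card_fin] at this
    exact this
  refine ⟨Y, i1, i2, hc, ⟨C, hC, h1, ?_⟩, fun n x => f ⟨n, x⟩, K, hK, ?_⟩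
  · intro n z
    refine (h1 n z).trans (mul_le_mul_of_nonneg_left ?_ (Real.rpow_nonneg hC.le q))
    apply avg_rpow_le _ (fun _ => norm_nonneg _) _ _ _ (by positivity) hq1
    simp
  · intro n x y
    have h2 := hf ⟨n, x⟩ ⟨n, y⟩
    rw [(Metric.Sigma.isometry_mk (E := fun n : ℕ => Fin n → ℂ) n).dist_eq] at h2
    exact h2

/-- eventually `A * n ^ s < n` when `s < 1` -/
lemma exists_large (A s : ℝ) (hs : s < 1) :
    ∃ N : ℕ, 1 ≤ N ∧ ∀ n : ℕ, N ≤ n → A * (n : ℝ) ^ s < n := by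
  have h1 : Filter.Tendsto (fun n : ℕ => (n : ℝ) ^ (1 - s)) Filter.atTop Filter.atTop :=
    (tendsto_rpow_atTop (by linarith)).comp tendsto_natCast_atTop_atTop
  obtain ⟨N, hN⟩ := Filter.eventually_atTop.1 (h1.eventually_gt_atTop A)
  refine ⟨max N 1, le_max_right _ _, fun n hn => ?_⟩
  have hn1 : (0 : ℝ) < n := by
    have : 1 ≤ n := le_trans (le_max_right _ _) hn
    exact_mod_cast this
  have h2 := hN n (le_trans (le_max_left _ _) hn)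
  have h3 : (n : ℝ) ^ (1 - s) * (n : ℝ) ^ s = n := by
    rw [← Real.rpow_add hn1]; simp
  have h4 : 0 < (n : ℝ) ^ s := Real.rpow_pos_of_pos hn1 s
  calc A * (n : ℝ) ^ s < (n : ℝ) ^ (1 - s) * (n : ℝ) ^ s := mul_lt_mul_of_pos_right h2 h4
    _ = n := h3

end Pool.Agent.H712Z.Cot
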