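import Mathlib

set_option autoImplicit false

namespace Pool.Agent.H712Z.Grid

open Finset

/-- Rademacher cotype `q`: the expectation is the mean over all sign choices `ε`. -/
def HasCotype (Y : Type) [NormedAddCommGroup Y] [NormedSpace ℝ Y] (q : ℝ) : Prop :=
  ∃ C : ℝ, 0 < C ∧ ∀ (k : ℕ) (y : Fin k → Y),
    (∑ j, ‖y j‖ ^ q) ^ (1 / q) ≤ C *
      ((∑ ε : Fin k → Bool, ‖∑ j, (if ε j then (1 : ℝ) else -1) • y j‖ ^ q) / 2 ^ k) ^ (1 / q)

/-- The sup-norm distance of two points of the grid with coordinates `0, …, m`: the norm on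
`Fin n → ℝ` is the maximum of the absolute values of the coordinates. -/
noncomputable def gridDist {m n : ℕ} (x y : Fin n → Fin (m + 1)) : ℝ :=
  ‖fun i : Fin n => ((x i : ℕ) : ℝ) - ((y i : ℕ) : ℝ)‖

/-- The grid with side `m` in dimension `n` embeds in `Y` with distortion `D`. -/
def GridEmbeds (Y : Type) [NormedAddCommGroup Y] (m n : ℕ) (D : ℝ) : Prop :=
  ∃ (f : (Fin n → Fin (m + 1)) → Y) (lam : ℝ), 0 < lam ∧ ∀ x y,
    lam * gridDist x y ≤ ‖f x - f y‖ ∧ ‖f x - f y‖ ≤ D * lam * gridDist x y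

end Pool.Agent.H712Z.Grid
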