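import Pool.Agent.H712Z.Cot.Fam
import Pool.Agent.H712Z.Cot.GridDefs

set_option autoImplicit false

namespace Pool.Agent.H712Z.Grid

open Finset Pool.Agent.H712Z.Cot

lemma dist_emb {m n : ℕ} (x y : Fin n → Fin (m + 1)) :
    dist (fun i : Fin n => (((x i : ℕ) : ℝ) : ℂ)) (fun i : Fin n => (((y i : ℕ) : ℝ) : ℂ))
      = gridDist x y := by
  unfold gridDist
  rw [dist_eq_norm]
  apply le_antisymm
  · rw [pi_norm_le_iff_of_nonneg (norm_nonneg _)]
    intro i
    have := norm_le_pi_norm (fun i : Fin n => ((x i : ℕ) : ℝ) - ((y i : ℕ) : ℝ)) i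
    rw [Pi.sub_apply, ← Complex.ofReal_sub, Complex.norm_real]
    exact this
  · rw [pi_norm_le_iff_of_nonneg (norm_nonneg _)]
    intro i
    have := norm_le_pi_norm ((fun i : Fin n => (((x i : ℕ) : ℝ) : ℂ))
      - (fun i : Fin n => (((y i : ℕ) : ℝ) : ℂ))) i
    rw [Pi.sub_apply, ← Complex.ofReal_sub, Complex.norm_real] at this
    exact this

lemma gridDist_le {m n : ℕ} (x y : Fin n → Fin (m + 1)) : gridDist x y ≤ m := by
  unfold gridDist
  rw [pi_norm_le_iff_of_nonneg (by positivity)]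
  intro i
  have h1 : ((x i : ℕ) : ℝ) ≤ m := by exact_mod_cast Nat.lt_succ_iff.1 (x i).2
  have h2 : ((y i : ℕ) : ℝ) ≤ m := by exact_mod_cast Nat.lt_succ_iff.1 (y i).2
  have h3 : (0 : ℝ) ≤ ((x i : ℕ) : ℝ) := by positivity
  have h4 : (0 : ℝ) ≤ ((y i : ℕ) : ℝ) := by positivity
  rw [Real.norm_eq_abs, abs_le]
  constructor <;> linarith

lemma gridDist_cases {m n : ℕ} (x y : Fin n → Fin (m + 1)) :
    gridDist x y = 0 ∨ 1 ≤ gridDist x y := by
  by_cases h : x = y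
  · left; subst h; simp [gridDist, Pi.norm_def]
  · right
    obtain ⟨i, hi⟩ := Function.ne_iff.1 h
    refine le_trans ?_ (norm_le_pi_norm (fun i : Fin n => ((x i : ℕ) : ℝ) - ((y i : ℕ) : ℝ)) i)
    have h1 : ((x i : ℕ) : ℤ) - ((y i : ℕ) : ℤ) ≠ 0 := by
      intro h2
      apply hi
      apply Fin.ext
      omega
    have h2 : (1 : ℤ) ≤ |((x i : ℕ) : ℤ) - ((y i : ℕ) : ℤ)| := Int.one_le_abs h1
    rw [Real.norm_eq_abs]
    exact_mod_cast h2

theorem main (q δ : ℝ) (hq : 2 < q) (hδ : 2 / q < δ) :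
    ∃ (Y : Type) (_ : NormedAddCommGroup Y) (_ : NormedSpace ℝ Y), CompleteSpace Y ∧
      HasCotype Y q ∧ ∃ K : ℝ, 0 < K ∧ ∀ m n : ℕ, 1 ≤ m → GridEmbeds Y m n (K * (m : ℝ) ^ δ) := by
  have hq0 : 0 < q := by linarith
  obtain ⟨s, hs1, hs2⟩ := exists_between (lt_min hδ ((div_lt_one hq0).2 hq))
  have hsδ : s < δ := lt_of_lt_of_le hs2 (min_le_left _ _)
  have hs3 : s < 1 := lt_of_lt_of_le hs2 (min_le_right _ _)
  have hs0 : 0 < s := lt_trans (by positivity) hs1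
  obtain ⟨Y, i1, i2, hc, ⟨C, hC, -, hcot⟩, f, K, hK, hf⟩ :=
    exists_univ q (1 - s) (by linarith) (by linarith) (by
      rw [div_lt_iff₀ hq0] at hs1; linarith)
  refine ⟨Y, i1, i2, hc, ⟨C, hC, fun k y => ?_⟩, K, hK, fun m n hm => ?_⟩
  · refine (Real.rpow_le_rpow (Finset.sum_nonneg fun _ _ => by positivity) (hcot k y)
      (by positivity)).trans (le_of_eq ?_)
    rw [Real.mul_rpow (by positivity) (div_nonneg (Finset.sum_nonneg fun _ _ => by positivity)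
      (by positivity)), ← Real.rpow_mul hC.le, mul_one_div_cancel hq0.ne', Real.rpow_one]
  · have hm1 : (1 : ℝ) ≤ m := by exact_mod_cast hm
    have hm0 : (0 : ℝ) < m := by linarith
    refine ⟨fun x => f n (fun i => (((x i : ℕ) : ℝ) : ℂ)), (m : ℝ) ^ (-s), by positivity,
      fun x y => ?_⟩
    obtain ⟨h1, h2⟩ := hf n (fun i => (((x i : ℕ) : ℝ) : ℂ)) (fun i => (((y i : ℕ) : ℝ) : ℂ))
    rw [dist_emb] at h1 h2
    rcases gridDist_cases x y with h0 | h0
    · rw [h0, Real.zero_rpow (by linarith), mul_zero] at h2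
      rw [h0, mul_zero, mul_zero]
      exact ⟨norm_nonneg _, h2⟩
    · have hd : 0 < gridDist x y := by linarith
      constructor
      · refine le_trans ?_ h1
        have e : gridDist x y ^ (1 - s) = gridDist x y ^ (-s) * gridDist x y := by
          rw [← Real.rpow_add_one hd.ne']; congr 1; ring
        rw [e]
        exact mul_le_mul_of_nonneg_right
          (Real.rpow_le_rpow_of_nonpos hd (gridDist_le x y) (by linarith)) hd.le
      · refine h2.trans ?_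
        have a1 : gridDist x y ^ (1 - s) ≤ gridDist x y := by
          calc gridDist x y ^ (1 - s) ≤ gridDist x y ^ (1 : ℝ) :=
                Real.rpow_le_rpow_of_exponent_le h0 (by linarith)
            _ = _ := Real.rpow_one _
        have a2 : 1 ≤ (m : ℝ) ^ δ * (m : ℝ) ^ (-s) := by
          rw [← Real.rpow_add hm0]
          exact Real.one_le_rpow hm1 (by linarith)
        calc K * gridDist x y ^ (1 - s) ≤ K * gridDist x y := mul_le_mul_of_nonneg_left a1 hK.le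
          _ = K * 1 * gridDist x y := by ring
          _ ≤ K * ((m : ℝ) ^ δ * (m : ℝ) ^ (-s)) * gridDist x y := by gcongr
          _ = _ := by ring

lemma embeds_mono {Y : Type} [NormedAddCommGroup Y] {m n : ℕ} {D D' : ℝ} (h : D ≤ D')
    (H : GridEmbeds Y m n D) : GridEmbeds Y m n D' := by
  obtain ⟨f, lam, hl, hf⟩ := H
  refine ⟨f, lam, hl, fun x y => ⟨(hf x y).1, (hf x y).2.trans ?_⟩⟩
  have : 0 ≤ gridDist x y := norm_nonneg _
  gcongr

theorem main' (q : ℝ) (hq : 2 < q) :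
    ∃ (Y : Type) (_ : NormedAddCommGroup Y) (_ : NormedSpace ℝ Y), CompleteSpace Y ∧
      HasCotype Y q ∧ ∀ c : ℝ, 0 < c → ∃ N : ℕ, ∀ n : ℕ, N ≤ n →
        GridEmbeds Y ⌈(n : ℝ) ^ (1 / q)⌉₊ n (c * (n : ℝ) ^ (1 / q)) := by
  have hq0 : 0 < q := by linarith
  obtain ⟨δ, hδ1, hδ2⟩ := exists_between ((div_lt_one hq0).2 hq)
  have hδ0 : 0 < δ := lt_trans (by positivity) hδ1
  obtain ⟨Y, i1, i2, hc, hcot, K, hK, h⟩ := main q δ hq hδ1
  refine ⟨Y, i1, i2, hc, hcot, fun c hc0 => ?_⟩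
  have h1 : Filter.Tendsto (fun n : ℕ => ((n : ℝ) ^ (1 / q)) ^ (1 - δ)) Filter.atTop Filter.atTop :=
    (tendsto_rpow_atTop (by linarith)).comp
      ((tendsto_rpow_atTop (by positivity)).comp tendsto_natCast_atTop_atTop)
  obtain ⟨N, hN⟩ := Filter.eventually_atTop.1 (h1.eventually_ge_atTop (K * 2 ^ δ / c))
  refine ⟨max N 1, fun n hn => ?_⟩
  have hn1 : (1 : ℝ) ≤ n := by
    have : 1 ≤ n := le_trans (le_max_right _ _) hn
    exact_mod_cast this
  have h2 := hN n (le_trans (le_max_left _ _) hn)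
  set t : ℝ := (n : ℝ) ^ (1 / q) with ht
  have ht1 : 1 ≤ t := Real.one_le_rpow hn1 (by positivity)
  have ht0 : 0 < t := by linarith
  have hm1 : 1 ≤ ⌈t⌉₊ := Nat.one_le_iff_ne_zero.2 (by
    rw [Ne, Nat.ceil_eq_zero]; linarith)
  refine embeds_mono ?_ (h ⌈t⌉₊ n hm1)
  have h3 : (⌈t⌉₊ : ℝ) ≤ 2 * t := by
    have := Nat.ceil_lt_add_one ht0.le
    linarith
  have h4 : (⌈t⌉₊ : ℝ) ^ δ ≤ 2 ^ δ * t ^ δ := by
    rw [← Real.mul_rpow (by norm_num) ht0.le]
    exact Real.rpow_le_rpow (by positivity) h3 hδ0.le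
  have h5 : t ^ (1 - δ) * t ^ δ = t := by
    rw [← Real.rpow_add ht0]; simp
  rw [div_le_iff₀ hc0] at h2
  have h6 : 0 < t ^ δ := by positivity
  calc K * (⌈t⌉₊ : ℝ) ^ δ ≤ K * (2 ^ δ * t ^ δ) := mul_le_mul_of_nonneg_left h4 hK.le
    _ = (K * 2 ^ δ) * t ^ δ := by ring
    _ ≤ (t ^ (1 - δ) * c) * t ^ δ := mul_le_mul_of_nonneg_right h2 h6.le
    _ = c * (t ^ (1 - δ) * t ^ δ) := by ring
    _ = c * t := by rw [h5]

end Pool.Agent.H712Z.Grid
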