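import Pool.Agent.H712Z.Cot.Space

set_option autoImplicit false

namespace Pool.Agent.H712Z.Cot

open Finset
open scoped ENNReal

variable {M : Type} [PseudoMetricSpace M]

lemma exists_zpow_ge (d : ℝ) : ∃ k : ℤ, d ≤ (2 : ℝ) ^ k := by
  obtain ⟨n, hn⟩ := pow_unbounded_of_one_lt d (by norm_num : (1 : ℝ) < 2)
  exact ⟨n, by rw [zpow_natCast]; exact hn.le⟩

/-- the ambient space of bounded functions on the set of tests -/
abbrev Amb (α : ℝ) (M : Type) [PseudoMetricSpace M] : Type := lp (fun _ : Test α M => ℝ) ∞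

/-- the point evaluations -/
noncomputable def pt {α : ℝ} (h1 : 1 < α) (h2 : α < 2) (x0 x : M) : Amb α M :=
  ⟨fun p => p.ev x - p.ev x0, by
    obtain ⟨k, hk⟩ := exists_zpow_ge (dist x x0)
    apply memℓp_infty
    refine ⟨Kc α * α ^ k, ?_⟩
    rintro _ ⟨p, rfl⟩
    exact ev_sub_le h1 h2 p x x0 k hk⟩

lemma pt_apply {α : ℝ} (h1 : 1 < α) (h2 : α < 2) (x0 x : M) (p : Test α M) :
    (pt h1 h2 x0 x) p = p.ev x - p.ev x0 := rfl

/-- the closed span of the point evaluations -/
noncomputable def Sp {α : ℝ} (h1 : 1 < α) (h2 : α < 2) (x0 : M) : Submodule ℝ (Amb α M) :=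
  (Submodule.span ℝ (Set.range (pt h1 h2 x0))).topologicalClosure

lemma pt_mem {α : ℝ} (h1 : 1 < α) (h2 : α < 2) (x0 x : M) : pt h1 h2 x0 x ∈ Sp h1 h2 x0 :=
  Submodule.le_topologicalClosure _ (Submodule.subset_span ⟨x, rfl⟩)

lemma vanish {α : ℝ} (h1 : 1 < α) (h2 : α < 2) (x0 : M) (L : Amb α M →L[ℝ] ℝ)
    (hL : ∀ x, L (pt h1 h2 x0 x) = 0) (z : Amb α M) (hz : z ∈ Sp h1 h2 x0) : L z = 0 := by
  have h : Sp h1 h2 x0 ≤ LinearMap.ker L.toLinearMap := by
    apply Submodule.topologicalClosure_minimal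
    · rw [Submodule.span_le]
      rintro _ ⟨x, rfl⟩
      exact hL x
    · exact L.isClosed_ker
  exact h hz

lemma evalCLM_apply {α : ℝ} (p : Test α M) (z : Amb α M) :
    lp.evalCLM ℝ (fun _ : Test α M => ℝ) ∞ p z = z p := rfl

lemma weak_ineq {α : ℝ} (h1 : 1 < α) (h2 : α < 2) (x0 : M) {ι : Type} [Fintype ι]
    [DecidableEq ι] (z : ι → Amb α M) (hz : ∀ j, z j ∈ Sp h1 h2 x0)
    (p : ι → Test α M) (η : ι → ℝ) (l : ℕ) (hη2 : ∑ j, η j ^ 2 ≤ 4 ^ l)
    (hη1 : ∑ j, |η j| ≤ 4 ^ l) :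
    ∑ j, η j * z j (p j) ≤ 2 * (2 * α) ^ l *
      ((∑ ε : ι → Bool, ‖∑ j, sg (ε j) • z j‖) / 2 ^ Fintype.card ι) := by
  have hα : 0 < α := by linarith
  obtain ⟨P, hP⟩ := exists_lift h1 p η l hη2 hη1
  set c : ℝ := 2 ^ Fintype.card ι * (2 * (2 * α) ^ l)⁻¹ with hc
  have hid : ∀ j, ∑ ε : ι → Bool, sg (ε j) * z j (P ε) = c * η j * z j (p j) := by
    intro j
    have := vanish h1 h2 x0
      ((∑ ε : ι → Bool, sg (ε j) • lp.evalCLM ℝ (fun _ : Test α M => ℝ) ∞ (P ε))
        - (c * η j) • lp.evalCLM ℝ (fun _ : Test α M => ℝ) ∞ (p j)) (by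
        intro x
        simp only [sub_apply, _root_.sum_apply,
          smul_apply, evalCLM_apply, pt_apply, smul_eq_mul, mul_sub,
          Finset.sum_sub_distrib, hP]
        ring) (z j) (hz j)
    simp only [sub_apply, _root_.sum_apply,
      smul_apply, evalCLM_apply, smul_eq_mul] at this
    linarith
  have h3 : c * ∑ j, η j * z j (p j) ≤ ∑ ε : ι → Bool, ‖∑ j, sg (ε j) • z j‖ := by
    calc c * ∑ j, η j * z j (p j) = ∑ j, ∑ ε : ι → Bool, sg (ε j) * z j (P ε) := by
          rw [Finset.mul_sum]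
          apply Finset.sum_congr rfl
          intro j _
          rw [hid j]; ring
      _ = ∑ ε : ι → Bool, ∑ j, sg (ε j) * z j (P ε) := Finset.sum_comm
      _ ≤ _ := by
          apply Finset.sum_le_sum
          intro ε _
          have e : ∑ j, sg (ε j) * z j (P ε) = (∑ j, sg (ε j) • z j) (P ε) := by
            rw [← evalCLM_apply, map_sum]
            apply Finset.sum_congr rfl
            intro j _
            rw [map_smul, evalCLM_apply, smul_eq_mul]
          rw [e]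
          exact (le_abs_self _).trans (lp.norm_apply_le_norm (p := ∞) (by simp) (∑ j, sg (ε j) • z j) (P ε))
  have hpos : (0 : ℝ) < 2 * (2 * α) ^ l := by positivity
  have hpos2 : (0 : ℝ) < 2 ^ Fintype.card ι := by positivity
  rw [mul_div_assoc', le_div_iff₀ hpos2]
  have h4 := mul_le_mul_of_nonneg_left h3 hpos.le
  have e : 2 * (2 * α) ^ l * (c * ∑ j, η j * z j (p j))
      = (∑ j, η j * z j (p j)) * 2 ^ Fintype.card ι := by
    rw [hc]; field_simp
  linarith

lemma count_lt {α : ℝ} (h1 : 1 < α) (h2 : α < 2) (x0 : M) {ι : Type} [Fintype ι]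
    [DecidableEq ι] (z : ι → Amb α M) (hz : ∀ j, z j ∈ Sp h1 h2 x0) (l : ℕ) (A : ℝ)
    (hA : A = (∑ ε : ι → Bool, ‖∑ j, sg (ε j) • z j‖) / 2 ^ Fintype.card ι) :
    (Finset.univ.filter (fun j => 2 * A * (α / 2) ^ l < ‖z j‖)).card < 4 ^ l := by
  classical
  have hα : 0 < α := by linarith
  have hA0 : 0 ≤ A := by
    rw [hA]
    exact div_nonneg (Finset.sum_nonneg fun _ _ => norm_nonneg _) (by positivity)
  by_contra hcon
  push Not at hcon
  obtain ⟨S, hS, hcard⟩ := Finset.exists_subset_card_eq hcon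
  set τ := 2 * A * (α / 2) ^ l with hτ
  have hτ0 : 0 ≤ τ := by positivity
  have hex : ∀ j, ∃ p : Test α M, j ∈ S → τ < |z j p| := by
    intro j
    by_cases hj : j ∈ S
    · have h3 := (Finset.mem_filter.1 (hS hj)).2
      by_contra h4
      push Not at h4
      have := lp.norm_le_of_forall_le (f := z j) hτ0 (fun p => (h4 p).2)
      linarith
    · exact ⟨⟨∅, fun _ _ => 0, fun k => good_zero hα k⟩, fun h => absurd h hj⟩
  choose p hp using hex
  let η : ι → ℝ := fun j => if j ∈ S then (if 0 ≤ z j (p j) then 1 else -1) else 0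
  have hη2 : ∀ j, η j ^ 2 = if j ∈ S then 1 else 0 := by
    intro j; simp only [η]; split_ifs <;> norm_num
  have hη1 : ∀ j, |η j| = if j ∈ S then 1 else 0 := by
    intro j; simp only [η]; split_ifs <;> norm_num
  have hsum : ∑ j, (if j ∈ S then (1 : ℝ) else 0) = 4 ^ l := by
    rw [Finset.sum_ite_mem, Finset.univ_inter, Finset.sum_const, hcard]
    simp
  have h5 := weak_ineq h1 h2 x0 z hz p η l (by simp only [hη2]; exact hsum.le)
    (by simp only [hη1]; exact hsum.le)
  rw [← hA] at h5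
  have h6 : ∑ j, η j * z j (p j) = ∑ j ∈ S, |z j (p j)| := by
    have : ∀ j, η j * z j (p j) = if j ∈ S then |z j (p j)| else 0 := by
      intro j
      simp only [η]
      split_ifs with a b
      · rw [abs_of_nonneg b, one_mul]
      · rw [abs_of_neg (not_le.1 b)]; ring
      · simp
    simp only [this]
    rw [Finset.sum_ite_mem, Finset.univ_inter]
  have hne : S.Nonempty := by
    rw [← Finset.card_pos, hcard]; positivity
  have h7 : ∑ _j ∈ S, τ < ∑ j ∈ S, |z j (p j)| :=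
    Finset.sum_lt_sum_of_nonempty hne (fun j hj => hp j hj)
  rw [Finset.sum_const, hcard, nsmul_eq_mul] at h7
  have e : ((4 ^ l : ℕ) : ℝ) * τ = 2 * (2 * α) ^ l * A := by
    rw [hτ]
    push_cast
    have : (4 : ℝ) ^ l * (α / 2) ^ l = (2 * α) ^ l := by
      rw [← mul_pow]; congr 1; ring
    rw [← this]; ring
  linarith

/-- from the distribution function to the power sum -/
lemma strong_of_weak {ι : Type} [Fintype ι] (t : ι → ℝ) (ht : ∀ j, 0 ≤ t j) (B r q : ℝ)
    (hB : 0 ≤ B) (hr : 0 < r) (hq : 0 < q) (hrq : 4 * r ^ q < 1)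
    (h : ∀ l : ℕ, (Finset.univ.filter (fun j => B * r ^ l < t j)).card < 4 ^ l) :
    ∑ j, t j ^ q ≤ 4 * (1 - 4 * r ^ q)⁻¹ * B ^ q := by
  classical
  set ρ := r ^ q with hρ
  have hρ0 : 0 < ρ := Real.rpow_pos_of_pos hr q
  have hτ : ∀ l : ℕ, (B * r ^ l) ^ q = B ^ q * ρ ^ l := by
    intro l
    rw [Real.mul_rpow hB (by positivity), hρ, ← Real.rpow_natCast r l, ← Real.rpow_mul hr.le,
      ← Real.rpow_natCast (r ^ q) l, ← Real.rpow_mul hr.le, mul_comm q]
  have h0 : ∀ j, t j ≤ B := by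
    intro j
    have h1 := h 0
    simp only [pow_zero, mul_one, Nat.lt_one_iff, Finset.card_eq_zero] at h1
    by_contra hc
    have : j ∈ Finset.univ.filter (fun j => B < t j) := by
      simp only [Finset.mem_filter, Finset.mem_univ, true_and]; exact not_le.1 hc
    rw [h1] at this
    exact absurd this (Finset.notMem_empty j)
  have hBq : 0 ≤ B ^ q := Real.rpow_nonneg hB q
  have hP : ∀ (L : ℕ) j, t j ^ q ≤
      (∑ l ∈ Finset.range L, if B * r ^ (l + 1) < t j then B ^ q * ρ ^ l else 0)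
        + B ^ q * ρ ^ L := by
    intro L j
    induction L with
    | zero =>
      simp only [Finset.range_zero, Finset.sum_empty, pow_zero, mul_one, zero_add]
      exact Real.rpow_le_rpow (ht j) (h0 j) hq.le
    | succ L ih =>
      rw [Finset.sum_range_succ]
      split_ifs with hc
      · have : 0 ≤ B ^ q * ρ ^ (L + 1) := by positivity
        linarith
      · have h2 : t j ^ q ≤ B ^ q * ρ ^ (L + 1) := by
          rw [← hτ]
          exact Real.rpow_le_rpow (ht j) (not_lt.1 hc) hq.le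
        have h3 : 0 ≤ ∑ l ∈ Finset.range L,
            if B * r ^ (l + 1) < t j then B ^ q * ρ ^ l else 0 := by
          apply Finset.sum_nonneg
          intro l _
          split_ifs
          · positivity
          · exact le_rfl
        linarith
  have hS : ∀ L : ℕ, ∑ j, t j ^ q ≤ 4 * (1 - 4 * ρ)⁻¹ * B ^ q
      + (Fintype.card ι : ℝ) * (B ^ q * ρ ^ L) := by
    intro L
    refine (Finset.sum_le_sum (fun j _ => hP L j)).trans ?_
    rw [Finset.sum_add_distrib, Finset.sum_const, Finset.card_univ, nsmul_eq_mul, Finset.sum_comm]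
    have h4 : ∑ l ∈ Finset.range L, ∑ j, (if B * r ^ (l + 1) < t j then B ^ q * ρ ^ l else 0)
        ≤ ∑ l ∈ Finset.range L, (4 * B ^ q) * (4 * ρ) ^ l := by
      apply Finset.sum_le_sum
      intro l _
      rw [← Finset.sum_filter, Finset.sum_const, nsmul_eq_mul]
      have h5 : ((Finset.univ.filter (fun j => B * r ^ (l + 1) < t j)).card : ℝ) ≤ 4 ^ (l + 1) := by
        exact_mod_cast (h (l + 1)).le
      calc _ ≤ (4 : ℝ) ^ (l + 1) * (B ^ q * ρ ^ l) :=
            mul_le_mul_of_nonneg_right h5 (by positivity)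
        _ = _ := by rw [mul_pow, pow_succ]; ring
    have h6 : ∑ l ∈ Finset.range L, (4 * ρ) ^ l ≤ (1 - 4 * ρ)⁻¹ := by
      rw [← tsum_geometric_of_lt_one (by positivity) hrq]
      exact (summable_geometric_of_lt_one (by positivity) hrq).sum_le_tsum _
        (fun n _ => by positivity)
    rw [← Finset.mul_sum] at h4
    have h7 := mul_le_mul_of_nonneg_left h6 (show 0 ≤ 4 * B ^ q by positivity)
    nlinarith
  have hlim : Filter.Tendsto (fun L : ℕ => 4 * (1 - 4 * ρ)⁻¹ * B ^ q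
      + (Fintype.card ι : ℝ) * (B ^ q * ρ ^ L)) Filter.atTop
      (nhds (4 * (1 - 4 * ρ)⁻¹ * B ^ q + (Fintype.card ι : ℝ) * (B ^ q * 0))) := by
    have := tendsto_pow_atTop_nhds_zero_of_lt_one hρ0.le (by linarith : ρ < 1)
    exact ((this.const_mul _).const_mul _).const_add _
  have := ge_of_tendsto' hlim hS
  simpa using this

lemma norm_pt_sub_le {α : ℝ} (h1 : 1 < α) (h2 : α < 2) (x0 x y : M) (k : ℤ)
    (h : dist x y ≤ (2 : ℝ) ^ k) : ‖pt h1 h2 x0 x - pt h1 h2 x0 y‖ ≤ Kc α * α ^ k := by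
  have hα : 0 < α := by linarith
  apply lp.norm_le_of_forall_le (mul_nonneg (Kc_pos h1 h2).le (by positivity))
  intro p
  have e : (pt h1 h2 x0 x - pt h1 h2 x0 y) p = p.ev x - p.ev y := by
    rw [lp.coeFn_sub, Pi.sub_apply, pt_apply, pt_apply]; ring
  rw [e]
  exact ev_sub_le h1 h2 p x y k h

lemma le_norm_pt_sub {α : ℝ} (h1 : 1 < α) (h2 : α < 2) (x0 x y : M) (k : ℤ)
    (h : (2 : ℝ) ^ k ≤ dist x y) : α ^ k ≤ ‖pt h1 h2 x0 x - pt h1 h2 x0 y‖ := by
  classical
  have hα : 0 < α := by linarith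
  have e1 : α ^ k = (α / 2) ^ k * (2 : ℝ) ^ k := by
    rw [← mul_zpow]; congr 1; ring
  have hg : Good α k (fun w : M => (α / 2) ^ k * min (dist w y) ((2 : ℝ) ^ k)) := by
    constructor
    · intro w
      rw [abs_of_nonneg (mul_nonneg (by positivity) (le_min dist_nonneg (by positivity))), e1]
      exact mul_le_mul_of_nonneg_left (min_le_right _ _) (by positivity)
    · intro w w'
      rw [← mul_sub, abs_mul, abs_of_pos (by positivity : 0 < (α / 2) ^ k)]
      apply mul_le_mul_of_nonneg_left _ (by positivity)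
      refine (abs_min_sub_min_le_max _ _ _ _).trans ?_
      rw [sub_self, abs_zero]
      exact max_le (abs_dist_sub_le w w' y) dist_nonneg
  let p : Test α M := ⟨{k}, fun i => if i = k then
      (fun w : M => (α / 2) ^ k * min (dist w y) ((2 : ℝ) ^ k)) else fun _ => 0, by
    intro i
    split_ifs with hi
    · rw [hi]; exact hg
    · exact good_zero hα i⟩
  have e : (pt h1 h2 x0 x - pt h1 h2 x0 y) p = α ^ k := by
    rw [lp.coeFn_sub, Pi.sub_apply, pt_apply, pt_apply]
    simp only [Test.ev, p, Finset.sum_singleton, if_true, dist_self]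
    rw [min_eq_right h, min_eq_left (by positivity : (0 : ℝ) ≤ 2 ^ k), e1]
    ring
  have h3 := lp.norm_apply_le_norm (p := ∞) (by simp) (pt h1 h2 x0 x - pt h1 h2 x0 y) p
  rw [e] at h3
  exact (le_abs_self _).trans h3

/-- Every snowflake of every metric space embeds in a Banach space of finite cotype. -/
theorem exists_space (M : Type) [PseudoMetricSpace M] (x0 : M) (q θ : ℝ) (hθ0 : 0 < θ)
    (hθ1 : θ < 1) (hq : 2 < q * (1 - θ)) :
    ∃ (Y : Type) (_ : NormedAddCommGroup Y) (_ : NormedSpace ℝ Y), CompleteSpace Y ∧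
      (∃ C : ℝ, 0 < C ∧ ∀ (ι : Type) [Fintype ι] [DecidableEq ι] (z : ι → Y),
        ∑ j, ‖z j‖ ^ q ≤ C ^ q *
          ((∑ ε : ι → Bool, ‖∑ j, sg (ε j) • z j‖) / 2 ^ Fintype.card ι) ^ q) ∧
      ∃ (f : M → Y) (K : ℝ), 0 < K ∧ ∀ x y, dist x y ^ θ ≤ ‖f x - f y‖ ∧
        ‖f x - f y‖ ≤ K * dist x y ^ θ := by
  set α : ℝ := (2 : ℝ) ^ θ with hαdef
  have h1 : 1 < α := Real.one_lt_rpow (by norm_num) hθ0
  have h2 : α < 2 := by
    calc α < (2 : ℝ) ^ (1 : ℝ) := Real.rpow_lt_rpow_of_exponent_lt (by norm_num) hθ1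
      _ = 2 := Real.rpow_one 2
  have hα : 0 < α := by linarith
  have hq0 : 0 < q := by
    by_contra hc
    push Not at hc
    nlinarith
  have hrq : 4 * (α / 2) ^ q < 1 := by
    have e : (α / 2) ^ q = (2 : ℝ) ^ (-(q * (1 - θ))) := by
      have : α / 2 = (2 : ℝ) ^ (θ - 1) := by
        rw [Real.rpow_sub (by norm_num), Real.rpow_one]
      rw [this, ← Real.rpow_mul (by norm_num)]
      congr 1; ring
    have e2 : (2 : ℝ) ^ (-(q * (1 - θ))) < (2 : ℝ) ^ (-(2 : ℝ)) :=
      Real.rpow_lt_rpow_of_exponent_lt (by norm_num) (by linarith)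
    have e3 : (2 : ℝ) ^ (-(2 : ℝ)) = 1 / 4 := by
      rw [Real.rpow_neg (by norm_num), Real.rpow_two]; norm_num
    rw [e3] at e2
    rw [e]; linarith
  have hzp : ∀ k : ℤ, α ^ k = ((2 : ℝ) ^ k) ^ θ := by
    intro k
    rw [hαdef, ← Real.rpow_intCast, ← Real.rpow_mul (by norm_num), ← Real.rpow_intCast,
      ← Real.rpow_mul (by norm_num), mul_comm]
  refine ⟨Sp h1 h2 x0, inferInstance, inferInstance,
    Submodule.topologicalClosure.completeSpace _, ?_, ?_⟩
  · have hD : 0 < 4 * (1 - 4 * (α / 2) ^ q)⁻¹ := by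
      have : 0 < 1 - 4 * (α / 2) ^ q := by linarith
      positivity
    refine ⟨2 * (4 * (1 - 4 * (α / 2) ^ q)⁻¹) ^ (1 / q), by positivity, ?_⟩
    intro ι _ _ z
    set A := (∑ ε : ι → Bool, ‖∑ j, sg (ε j) • z j‖) / 2 ^ Fintype.card ι with hA
    have hA0 : 0 ≤ A := div_nonneg (Finset.sum_nonneg fun _ _ => norm_nonneg _) (by positivity)
    have hA' : A = (∑ ε : ι → Bool, ‖∑ j, sg (ε j) • (z j : Amb α M)‖) / 2 ^ Fintype.card ι := by
      rw [hA]
      congr 1
      apply Finset.sum_congr rfl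
      intro ε _
      rw [Submodule.coe_norm, Submodule.coe_sum]
      rfl
    have h3 := strong_of_weak (fun j => ‖z j‖) (fun j => norm_nonneg _) (2 * A) (α / 2) q
      (by positivity) (by positivity) hq0 hrq
      (fun l => count_lt h1 h2 x0 (fun j => (z j : Amb α M)) (fun j => (z j).2) l A hA')
    refine h3.trans (le_of_eq ?_)
    rw [Real.mul_rpow (by norm_num) hA0, Real.mul_rpow (by norm_num) (by positivity),
      ← Real.rpow_mul hD.le, one_div_mul_cancel hq0.ne', Real.rpow_one]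
    ring
  · refine ⟨fun x => α • ⟨pt h1 h2 x0 x, pt_mem h1 h2 x0 x⟩, α * (Kc α * α),
      by have := Kc_pos h1 h2; positivity, fun x y => ?_⟩
    have hn : ‖α • (⟨pt h1 h2 x0 x, pt_mem h1 h2 x0 x⟩ : Sp h1 h2 x0)
        - α • ⟨pt h1 h2 x0 y, pt_mem h1 h2 x0 y⟩‖ = α * ‖pt h1 h2 x0 x - pt h1 h2 x0 y‖ := by
      rw [← smul_sub, norm_smul, Real.norm_eq_abs, abs_of_pos hα]
      rfl
    rw [hn]
    rcases (dist_nonneg (x := x) (y := y)).eq_or_lt with hd | hd
    · rw [← hd, Real.zero_rpow hθ0.ne', mul_zero]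
      refine ⟨by positivity, ?_⟩
      have h4 : ∀ n : ℕ, ‖pt h1 h2 x0 x - pt h1 h2 x0 y‖ ≤ Kc α * (α⁻¹) ^ n := by
        intro n
        have := norm_pt_sub_le h1 h2 x0 x y (-(n : ℤ)) (by rw [← hd]; positivity)
        rwa [zpow_neg, zpow_natCast, ← inv_pow] at this
      have hlim : Filter.Tendsto (fun n : ℕ => Kc α * (α⁻¹) ^ n) Filter.atTop
          (nhds (Kc α * 0)) :=
        (tendsto_pow_atTop_nhds_zero_of_lt_one (by positivity)
          (inv_lt_one_of_one_lt₀ h1)).const_mul _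
      have h5 := ge_of_tendsto' hlim h4
      rw [mul_zero] at h5
      have := norm_nonneg (pt h1 h2 x0 x - pt h1 h2 x0 y)
      nlinarith
    · obtain ⟨k, hk1, hk2⟩ := exists_mem_Ico_zpow hd (by norm_num : (1 : ℝ) < 2)
      have a1 := le_norm_pt_sub h1 h2 x0 x y k hk1
      have a2 := norm_pt_sub_le h1 h2 x0 x y (k + 1) hk2.le
      have b1 : α ^ k ≤ dist x y ^ θ := by
        rw [hzp]; exact Real.rpow_le_rpow (by positivity) hk1 hθ0.le
      have b2 : dist x y ^ θ ≤ α ^ (k + 1) := by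
        rw [hzp]; exact Real.rpow_le_rpow hd.le hk2.le hθ0.le
      rw [zpow_add_one₀ hα.ne'] at a2 b2
      have hK := Kc_pos h1 h2
      constructor
      · nlinarith
      · have : Kc α * (α ^ k * α) ≤ Kc α * α * dist x y ^ θ := by
          have := mul_le_mul_of_nonneg_left b1 (mul_pos hK hα).le
          linarith
        nlinarith

end Pool.Agent.H712Z.Cot
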