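import Mathlib

set_option autoImplicit false

namespace Pool.Agent.H712Z.Torus

open Finset

/-- Rademacher cotype `q`: the expectation is the mean over all sign choices `σ`. -/
def HasCotype (Y : Type) [NormedAddCommGroup Y] [NormedSpace ℝ Y] (q : ℝ) : Prop :=
  ∃ C : ℝ, 0 < C ∧ ∀ (n : ℕ) (y : Fin n → Y),
    ∑ j, ‖y j‖ ^ q ≤ C ^ q *
      ((∑ σ : Fin n → Bool, ‖∑ j, (if σ j then (1 : ℝ) else -1) • y j‖ ^ q) / 2 ^ n)

/-- The metric cotype `q` inequality with constant `Γ` for the pair `(n, m)`: `x` is uniform on the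
discrete torus and `ε` is uniform on the vectors with entries `-1, 0, 1`. -/
def MetricCotypeIneq (Y : Type) [NormedAddCommGroup Y] (q Γ : ℝ) (n m : ℕ) [NeZero m] : Prop :=
  ∀ f : (Fin n → ZMod m) → Y,
    ∑ j : Fin n, (∑ x : Fin n → ZMod m,
        ‖f (x + Pi.single j ((m / 2 : ℕ) : ZMod m)) - f x‖ ^ q) / (m : ℝ) ^ n
      ≤ Γ ^ q * (m : ℝ) ^ q *
        ((∑ ε : Fin n → SignType, ∑ x : Fin n → ZMod m,
          ‖f (x + fun i => ((ε i : SignType) : ZMod m)) - f x‖ ^ q) / (3 ^ n * (m : ℝ) ^ n))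

end Pool.Agent.H712Z.Torus
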