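import Pool.Agent.H712Z.Cot.Fam
import Pool.Agent.H712Z.Cot.TorusDefs

set_option autoImplicit false

namespace Pool.Agent.H712Z.Torus

open Finset Pool.Agent.H712Z.Cot

/-- the torus inside the complex sup-norm space -/
noncomputable def emb (n m : ℕ) [NeZero m] (x : Fin n → ZMod m) : Fin n → ℂ :=
  fun i => (m : ℂ) * ZMod.stdAddChar (x i)

lemma norm_char (m : ℕ) [NeZero m] (a : ZMod m) : ‖ZMod.stdAddChar a‖ = 1 := by
  rw [ZMod.stdAddChar_apply]; exact Circle.norm_coe _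

lemma char_half (m : ℕ) [NeZero m] (hm : Even m) :
    ZMod.stdAddChar (((m / 2 : ℕ) : ZMod m)) = -1 := by
  obtain ⟨k, hk⟩ := hm
  have h0 : m ≠ 0 := NeZero.ne m
  have h1 : m / 2 = k := by omega
  have h2 : ((k : ℕ) : ZMod m) = ((k : ℤ) : ZMod m) := by simp
  rw [h1, h2, ZMod.stdAddChar_coe]
  have hk0 : (k : ℂ) ≠ 0 := by
    have : k ≠ 0 := by omega
    exact_mod_cast this
  have e : 2 * (Real.pi : ℂ) * Complex.I * ((k : ℤ) : ℂ) / (m : ℂ) = Real.pi * Complex.I := by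
    rw [hk]; push_cast; field_simp; ring
  rw [e, Complex.exp_pi_mul_I]

lemma char_int (m : ℕ) [NeZero m] (j : ℤ) (hj : |(j : ℝ)| ≤ 1) :
    (m : ℝ) * ‖ZMod.stdAddChar ((j : ZMod m)) - 1‖ ≤ 8 := by
  have h0 : (0 : ℝ) < m := by
    have : m ≠ 0 := NeZero.ne m
    positivity
  rw [ZMod.stdAddChar_coe]
  have e : 2 * (Real.pi : ℂ) * Complex.I * (j : ℂ) / (m : ℂ)
      = Complex.I * ((2 * Real.pi * j / m : ℝ) : ℂ) := by
    push_cast; ring
  rw [e]
  have h1 := Real.norm_exp_I_mul_ofReal_sub_one_le (x := 2 * Real.pi * j / m)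
  have h2 : ‖2 * Real.pi * j / m‖ ≤ 8 / m := by
    rw [Real.norm_eq_abs, abs_div, abs_of_pos h0, abs_mul, abs_of_pos (by positivity)]
    apply div_le_div_of_nonneg_right _ h0.le
    have := Real.pi_le_four
    have := Real.pi_pos
    nlinarith [abs_nonneg (j : ℝ)]
  calc (m : ℝ) * ‖Complex.exp (Complex.I * ((2 * Real.pi * j / m : ℝ) : ℂ)) - 1‖
      ≤ m * (8 / m) := mul_le_mul_of_nonneg_left (h1.trans h2) h0.le
    _ = 8 := by field_simp

lemma char_sign (m : ℕ) [NeZero m] (s : SignType) :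
    (m : ℝ) * ‖ZMod.stdAddChar ((s : ZMod m)) - 1‖ ≤ 8 := by
  cases s with
  | zero => have := char_int m 0 (by simp); simpa using this
  | neg => have := char_int m (-1) (by simp); simpa using this
  | pos => have := char_int m 1 (by simp); simpa using this

lemma dist_small (n m : ℕ) [NeZero m] (x : Fin n → ZMod m) (ε : Fin n → SignType) :
    dist (emb n m (x + fun i => ((ε i : SignType) : ZMod m))) (emb n m x) ≤ 8 := by
  rw [dist_pi_le_iff (by norm_num)]
  intro i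
  rw [dist_eq_norm]
  simp only [emb, Pi.add_apply, AddChar.map_add_eq_mul]
  have e : (m : ℂ) * (ZMod.stdAddChar (x i) * ZMod.stdAddChar ((ε i : SignType) : ZMod m))
      - (m : ℂ) * ZMod.stdAddChar (x i)
      = ZMod.stdAddChar (x i) * ((m : ℂ) * (ZMod.stdAddChar ((ε i : SignType) : ZMod m) - 1)) := by
    ring
  rw [e, norm_mul, norm_char, one_mul, norm_mul, Complex.norm_natCast]
  exact char_sign m (ε i)

lemma dist_large (n m : ℕ) [NeZero m] (hm : Even m) (x : Fin n → ZMod m) (j : Fin n) :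
    (m : ℝ) ≤ dist (emb n m (x + Pi.single j ((m / 2 : ℕ) : ZMod m))) (emb n m x) := by
  refine le_trans ?_ (dist_le_pi_dist _ _ j)
  rw [dist_eq_norm]
  simp only [emb, Pi.add_apply, Pi.single_eq_same, AddChar.map_add_eq_mul, char_half m hm]
  have e : (m : ℂ) * (ZMod.stdAddChar (x j) * -1) - (m : ℂ) * ZMod.stdAddChar (x j)
      = ZMod.stdAddChar (x j) * ((m : ℂ) * (-2)) := by ring
  rw [e, norm_mul, norm_char, one_mul, norm_mul, Complex.norm_natCast]
  have : (0 : ℝ) ≤ m := by positivity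
  simp
  linarith

theorem main (q γ : ℝ) (hq : 2 < q) (hγ : γ < 1 / 2) :
    ∃ (Y : Type) (_ : NormedAddCommGroup Y) (_ : NormedSpace ℝ Y), CompleteSpace Y ∧
      HasCotype Y q ∧ ∀ C Γ : ℝ, ∃ (n m : ℕ) (_ : NeZero m), 1 ≤ n ∧ Even m ∧
        C * (n : ℝ) ^ γ ≤ m ∧ ¬ MetricCotypeIneq Y q Γ n m := by
  have hq0 : 0 < q := by linarith
  set g : ℝ := max γ (1 / 4) with hg
  have hg0 : 0 < g := lt_of_lt_of_le (by norm_num) (le_max_right _ _)
  have hg1 : g < 1 / 2 := max_lt hγ (by norm_num)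
  -- choose `u = q (1 - θ)` with `2 < u < q` and `g u < 1`
  obtain ⟨u, hu2, huq, hug⟩ : ∃ u : ℝ, 2 < u ∧ u < q ∧ g * u < 1 := by
    have h1 : 2 < min q (1 / g) := lt_min hq (by rw [lt_div_iff₀ hg0]; linarith)
    obtain ⟨u, a, b⟩ := exists_between h1
    refine ⟨u, a, lt_of_lt_of_le b (min_le_left _ _), ?_⟩
    have := lt_of_lt_of_le b (min_le_right _ _)
    rw [lt_div_iff₀ hg0] at this
    linarith
  set θ : ℝ := 1 - u / q with hθ
  have hu' : q * (1 - θ) = u := by rw [hθ]; field_simp; ring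
  have hθ0 : 0 < θ := by
    rw [hθ, sub_pos, div_lt_one hq0]; exact huq
  have hθ1 : θ < 1 := by
    rw [hθ]; have : 0 < u / q := by positivity
    linarith
  obtain ⟨Y, i1, i2, hc, ⟨C₀, hC₀, -, hcot⟩, f, K, hK, hf⟩ :=
    exists_univ q θ hθ0 hθ1 (by rw [hu']; exact hu2)
  refine ⟨Y, i1, i2, hc, ⟨C₀, hC₀, hcot⟩, fun C Γ => ?_⟩
  set D : ℝ := max C 1 with hD
  have hD1 : 1 ≤ D := le_max_right _ _
  set A : ℝ := |Γ| ^ q * (K * 8 ^ θ) ^ q with hA
  have hA0 : 0 ≤ A := by positivity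
  obtain ⟨n, hn1, hn⟩ := exists_large (A * (4 * D) ^ u) (g * u) hug
  have hn' := hn n le_rfl
  have hnr : (1 : ℝ) ≤ n := by exact_mod_cast hn1
  have hng : 1 ≤ (n : ℝ) ^ g := Real.one_le_rpow hnr hg0.le
  set k : ℕ := ⌈D * (n : ℝ) ^ g⌉₊ with hk
  have hk1 : D * (n : ℝ) ^ g ≤ k := Nat.le_ceil _
  have hDn : 1 ≤ D * (n : ℝ) ^ g := by nlinarith
  have hk2 : (k : ℝ) < D * (n : ℝ) ^ g + 1 := Nat.ceil_lt_add_one (by linarith)
  have hkpos : (0 : ℝ) < k := by linarith
  have hk0 : k ≠ 0 := by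
    intro h; rw [h] at hkpos; simp at hkpos
  haveI : NeZero (k + k) := ⟨by omega⟩
  refine ⟨n, k + k, inferInstance, hn1, ⟨k, rfl⟩, ?_, ?_⟩
  · have h1 : (n : ℝ) ^ γ ≤ (n : ℝ) ^ g := Real.rpow_le_rpow_of_exponent_le hnr (le_max_left _ _)
    have h2 : C * (n : ℝ) ^ γ ≤ D * (n : ℝ) ^ γ :=
      mul_le_mul_of_nonneg_right (le_max_left _ _) (by positivity)
    have h3 : D * (n : ℝ) ^ γ ≤ D * (n : ℝ) ^ g := mul_le_mul_of_nonneg_left h1 (by linarith)
    push_cast
    linarith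
  · intro H
    set m : ℕ := k + k with hm
    have hmpos : (0 : ℝ) < m := by rw [hm]; push_cast; linarith
    have hm4 : (m : ℝ) ≤ 4 * D * (n : ℝ) ^ g := by rw [hm]; push_cast; linarith
    have H1 := H (fun x => f n (emb n m x))
    have hcard : (Fintype.card (Fin n → ZMod m) : ℝ) = (m : ℝ) ^ n := by
      rw [Fintype.card_fun, ZMod.card, Fintype.card_fin]; push_cast; rfl
    have hcard3 : (Fintype.card (Fin n → SignType) : ℝ) = 3 ^ n := by
      have : Fintype.card SignType = 3 := by decide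
      rw [Fintype.card_fun, this, Fintype.card_fin]; push_cast; rfl
    have hL : (n : ℝ) * ((m : ℝ) ^ θ) ^ q ≤ ∑ j : Fin n, (∑ x : Fin n → ZMod m,
        ‖f n (emb n m (x + Pi.single j ((m / 2 : ℕ) : ZMod m))) - f n (emb n m x)‖ ^ q)
          / (m : ℝ) ^ n := by
      calc (n : ℝ) * ((m : ℝ) ^ θ) ^ q = ∑ _j : Fin n, ((m : ℝ) ^ θ) ^ q := by simp
        _ ≤ _ := by
          apply Finset.sum_le_sum
          intro j _
          rw [le_div_iff₀ (by positivity)]
          calc ((m : ℝ) ^ θ) ^ q * (m : ℝ) ^ n = ∑ _x : Fin n → ZMod m, ((m : ℝ) ^ θ) ^ q := by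
                rw [Finset.sum_const, Finset.card_univ, nsmul_eq_mul, hcard, mul_comm]
            _ ≤ _ := by
                apply Finset.sum_le_sum
                intro x _
                apply Real.rpow_le_rpow (by positivity) _ hq0.le
                exact (Real.rpow_le_rpow hmpos.le (dist_large n m ⟨k, rfl⟩ x j) hθ0.le).trans
                  (hf n _ _).1
    set S : ℝ := (∑ ε : Fin n → SignType, ∑ x : Fin n → ZMod m,
          ‖f n (emb n m (x + fun i => ((ε i : SignType) : ZMod m))) - f n (emb n m x)‖ ^ q)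
            / (3 ^ n * (m : ℝ) ^ n) with hS
    have hS0 : 0 ≤ S := by
      apply div_nonneg _ (by positivity)
      exact Finset.sum_nonneg fun _ _ => Finset.sum_nonneg fun _ _ => by positivity
    have hR : S ≤ (K * 8 ^ θ) ^ q := by
      rw [hS, div_le_iff₀ (by positivity)]
      calc _ ≤ ∑ _ε : Fin n → SignType, ∑ _x : Fin n → ZMod m, (K * 8 ^ θ) ^ q := by
            apply Finset.sum_le_sum
            intro ε _
            apply Finset.sum_le_sum
            intro x _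
            apply Real.rpow_le_rpow (norm_nonneg _) _ hq0.le
            refine (hf n _ _).2.trans (mul_le_mul_of_nonneg_left ?_ hK.le)
            exact Real.rpow_le_rpow dist_nonneg (dist_small n m x ε) hθ0.le
        _ = _ := by
            rw [Finset.sum_const, Finset.sum_const, Finset.card_univ, Finset.card_univ,
              nsmul_eq_mul, nsmul_eq_mul, hcard, hcard3]
            ring
    have hΓ : Γ ^ q ≤ |Γ| ^ q := (le_abs_self _).trans (Real.abs_rpow_le_abs_rpow Γ q)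
    have hmq : 0 < (m : ℝ) ^ q := by positivity
    have h5 : Γ ^ q * (m : ℝ) ^ q * S ≤ A * (m : ℝ) ^ q := by
      calc Γ ^ q * (m : ℝ) ^ q * S ≤ |Γ| ^ q * (m : ℝ) ^ q * S := by gcongr
        _ ≤ |Γ| ^ q * (m : ℝ) ^ q * (K * 8 ^ θ) ^ q := by gcongr
        _ = _ := by rw [hA]; ring
    have h6 : (n : ℝ) * ((m : ℝ) ^ θ) ^ q ≤ A * (m : ℝ) ^ q := hL.trans (H1.trans h5)
    have h7 : (m : ℝ) ^ q = ((m : ℝ) ^ θ) ^ q * (m : ℝ) ^ u := by
      rw [← Real.rpow_mul hmpos.le, ← Real.rpow_add hmpos]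
      congr 1; rw [← hu']; ring
    have h8 : (n : ℝ) ≤ A * (m : ℝ) ^ u := by
      have hp : 0 < ((m : ℝ) ^ θ) ^ q := by positivity
      rw [h7] at h6
      have : (n : ℝ) * ((m : ℝ) ^ θ) ^ q ≤ (A * (m : ℝ) ^ u) * ((m : ℝ) ^ θ) ^ q := by linarith
      exact le_of_mul_le_mul_right this hp
    have h9 : (m : ℝ) ^ u ≤ (4 * D) ^ u * (n : ℝ) ^ (g * u) := by
      rw [Real.rpow_mul (by linarith), ← Real.mul_rpow (by linarith) (by positivity)]
      exact Real.rpow_le_rpow hmpos.le hm4 (by linarith)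
    have h10 := mul_le_mul_of_nonneg_left h9 hA0
    linarith

end Pool.Agent.H712Z.Torus
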